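import Pool.Agent.H9.Pandi.Defs

/-!
# Bipartite `d`-degenerate graphs that are not pandichotomous in `ℝ^(d-1)`

Let `d ≥ 1`. The graph has the vertices `i : Fin d` (the first vertices), all patterns
`y : Fin d → Bool`, and for every first vertex `i` and every set `T` of at most `d` patterns a vertex
`(i, T)`. Every pattern is adjacent to all first vertices, and `(i, T)` is adjacent to the patterns
in `T`. The edge from `i` to `y` is short iff `y i = true`, the edge from `(i, T)` to `y` is short iff
`y i = false`. Assume a realization in `ℝ^(d-1)`, with `i` at `a i` and `y` at `b y`. The vertices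
`(i, T)` and Helly's theorem give vectors `v i` such that `⟪v i, b y - a i⟫ < 1` if `y i = true` and
`⟪v i, b y - a i⟫ > 1` if `y i = false`. The `d` vectors `v i` are linearly dependent, and the signs of
the coefficients of a linear dependence give a pattern contradicting this.
-/

open Finset
open scoped BigOperators RealInnerProductSpace

namespace Pool.Agent.Results.MP_8dd54d_co.BipartiteDegenerate

open Pool.Agent.H9.Pandi

/-- Patterns. -/
abbrev Pat (d : ℕ) : Type := Fin d → Bool

/-- The left side of the bipartition. -/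
abbrev Lft (d : ℕ) : Type := Fin d ⊕ (Fin d × {T : Finset (Pat d) // T.card ≤ d})

/-- The vertex set. -/
abbrev Vx (d : ℕ) : Type := Lft d ⊕ Pat d

/-- The adjacency between the left side and the patterns. -/
def rel (d : ℕ) : Lft d → Pat d → Prop
  | Sum.inl _, _ => True
  | Sum.inr x, y => y ∈ x.2.1

/-- The labels (`true` means short). -/
def lab (d : ℕ) : Lft d → Pat d → Bool
  | Sum.inl i, y => y i
  | Sum.inr x, y => !(y x.1)

/-- The graph. -/
def Gr (d : ℕ) : SimpleGraph (Vx d) where
  Adj
    | Sum.inl l, Sum.inr y => rel d l y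
    | Sum.inr y, Sum.inl l => rel d l y
    | _, _ => False
  symm := ⟨by
    rintro (l | y) (l' | y') h
    · exact h
    · exact h
    · exact h
    · exact h⟩
  loopless := ⟨by
    rintro (l | y) h
    · exact h
    · exact h⟩

/-- The short edges. -/
def Es (d : ℕ) : Set (Sym2 (Vx d)) :=
  {e | ∃ l y, rel d l y ∧ lab d l y = true ∧ e = s(Sum.inl l, Sum.inr y)}

lemma Es_subset (d : ℕ) : Es d ⊆ (Gr d).edgeSet := by
  rintro e ⟨l, y, h, -, rfl⟩
  exact h

lemma mem_Es {d : ℕ} {l : Lft d} {y : Pat d} (h : rel d l y) :
    s((Sum.inl l : Vx d), Sum.inr y) ∈ Es d ↔ lab d l y = true := by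
  constructor
  · rintro ⟨l', y', h1, h2, h3⟩
    rw [Sym2.eq_iff] at h3
    rcases h3 with ⟨h3, h4⟩ | ⟨h3, h4⟩
    · cases h3
      cases h4
      exact h2
    · cases h3
  · intro h1
    exact ⟨l, y, h, h1, rfl⟩

lemma bipartite (d : ℕ) : (Gr d).IsBipartite := by
  refine ⟨⟨fun v => Sum.elim (fun _ => 0) (fun _ => 1) v, ?_⟩⟩
  rintro (l | y) (l' | y') h
  · exact h.elim
  · simp
  · simp
  · exact h.elim

lemma degenerate (d : ℕ) : IsDegenerate (Gr d) d := by
  classical
  intro H hH
  by_cases h2 : ∃ x : Fin d × {T : Finset (Pat d) // T.card ≤ d},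
      (Sum.inl (Sum.inr x) : Vx d) ∈ H.verts
  · obtain ⟨x, hx⟩ := h2
    refine ⟨_, hx, ?_⟩
    have hsub : H.neighborSet (Sum.inl (Sum.inr x)) ⊆
        ((x.2.1.image (fun y => (Sum.inr y : Vx d)) : Finset (Vx d)) : Set (Vx d)) := by
      rintro (l | y) hw
      · exact (H.adj_sub hw).elim
      · have : y ∈ x.2.1 := H.adj_sub hw
        simp [this]
    refine (Set.encard_le_encard hsub).trans ?_
    rw [Set.encard_coe_eq_coe_finsetCard]
    exact_mod_cast (card_image_le.trans x.2.2)
  · by_cases h1 : ∃ y : Pat d, (Sum.inr y : Vx d) ∈ H.verts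
    · obtain ⟨y, hy⟩ := h1
      refine ⟨_, hy, ?_⟩
      have hsub : H.neighborSet (Sum.inr y) ⊆
          (((univ : Finset (Fin d)).image (fun i => (Sum.inl (Sum.inl i) : Vx d)) :
            Finset (Vx d)) : Set (Vx d)) := by
        rintro ((i | x) | y') hw
        · simp
        · exact (h2 ⟨x, H.edge_vert (SimpleGraph.Subgraph.Adj.symm hw)⟩).elim
        · exact (H.adj_sub hw).elim
      refine (Set.encard_le_encard hsub).trans ?_
      rw [Set.encard_coe_eq_coe_finsetCard]
      have := card_image_le (s := (univ : Finset (Fin d)))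
        (f := fun i => (Sum.inl (Sum.inl i) : Vx d))
      rw [card_univ, Fintype.card_fin] at this
      exact_mod_cast this
    · obtain ⟨v, hv⟩ := hH
      refine ⟨v, hv, ?_⟩
      have hsub : H.neighborSet v ⊆ ∅ := by
        intro w hw
        have hw1 : w ∈ H.verts := H.edge_vert (SimpleGraph.Subgraph.Adj.symm hw)
        rcases v with l | y
        · rcases w with l' | y'
          · exact (H.adj_sub hw).elim
          · exact (h1 ⟨y', hw1⟩).elim
        · exact (h1 ⟨y, hv⟩).elim
      have hempty : H.neighborSet v = ∅ := Set.subset_empty_iff.1 hsub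
      rw [hempty]
      simp

/-- The convex sets used in Helly's theorem. -/
def Cset {k d : ℕ} (a : Fin d → EuclideanSpace ℝ (Fin k)) (b : Pat d → EuclideanSpace ℝ (Fin k))
    (i : Fin d) (y : Pat d) : Set (EuclideanSpace ℝ (Fin k)) :=
  {v | if y i = true then ⟪b y - a i, v⟫ < 1 else 1 < ⟪b y - a i, v⟫}

lemma convex_Cset {k d : ℕ} (a : Fin d → EuclideanSpace ℝ (Fin k))
    (b : Pat d → EuclideanSpace ℝ (Fin k)) (i : Fin d) (y : Pat d) :
    Convex ℝ (Cset a b i y) := by
  unfold Cset
  by_cases h : y i = true
  · simp only [h, if_true]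
    exact convex_halfSpace_lt (innerSL ℝ (b y - a i)).toLinearMap.isLinear 1
  · simp only [h]
    exact convex_halfSpace_gt (innerSL ℝ (b y - a i)).toLinearMap.isLinear 1

/-- The main linear algebra step. -/
lemma no_vectors {k d : ℕ} (hkd : k < d) (a : Fin d → EuclideanSpace ℝ (Fin k))
    (b : Pat d → EuclideanSpace ℝ (Fin k)) (v : Fin d → EuclideanSpace ℝ (Fin k))
    (hv : ∀ i y, v i ∈ Cset a b i y) : False := by
  classical
  have hdep : ¬ LinearIndependent ℝ v := by
    intro h
    have := h.fintype_card_le_finrank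
    rw [Fintype.card_fin, finrank_euclideanSpace_fin] at this
    omega
  rw [Fintype.not_linearIndependent_iff] at hdep
  obtain ⟨α, hα, i0, hi0⟩ := hdep
  have key : ∀ y : Pat d, ∑ i, α i * (⟪b y - a i, v i⟫ - 1) =
      - ∑ i, α i * (⟪a i, v i⟫ + 1) := by
    intro y
    have h1 : ∑ i, α i * ⟪b y, v i⟫ = 0 := by
      have : ⟪b y, ∑ i, α i • v i⟫ = ∑ i, α i * ⟪b y, v i⟫ := by
        rw [inner_sum]
        simp_rw [real_inner_smul_right]
      rw [← this, hα, inner_zero_right]
    have h2 : ∀ i, α i * (⟪b y - a i, v i⟫ - 1) =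
        α i * ⟪b y, v i⟫ - α i * (⟪a i, v i⟫ + 1) := by
      intro i
      rw [inner_sub_left]
      ring
    simp_rw [h2]
    rw [Finset.sum_sub_distrib, h1, zero_sub]
  rcases le_or_gt 0 (- ∑ i, α i * (⟪a i, v i⟫ + 1)) with hc | hc
  · let y : Pat d := fun i => decide (0 < α i)
    have hneg : ∑ i, α i * (⟪b y - a i, v i⟫ - 1) < 0 := by
      have hle : ∀ i ∈ (univ : Finset (Fin d)), α i * (⟪b y - a i, v i⟫ - 1) ≤ 0 := by
        intro i _
        have h := hv i y
        unfold Cset at h
        rcases lt_or_ge 0 (α i) with hp | hp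
        · have hy : y i = true := by simp [y, hp]
          simp only [hy, Set.mem_ofPred_eq, if_true] at h
          nlinarith
        · have hy : ¬ y i = true := by simp [y, hp]
          simp only [hy, Set.mem_ofPred_eq] at h
          have h' : 1 < ⟪b y - a i, v i⟫ := h
          nlinarith
      refine Finset.sum_neg' hle ⟨i0, mem_univ _, ?_⟩
      have h := hv i0 y
      unfold Cset at h
      rcases lt_or_gt_of_ne hi0 with hp | hp
      · have hy : ¬ y i0 = true := by simp [y, hp.le]
        simp only [hy, Set.mem_ofPred_eq] at h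
        have h' : 1 < ⟪b y - a i0, v i0⟫ := h
        nlinarith
      · have hy : y i0 = true := by simp [y, hp]
        simp only [hy, Set.mem_ofPred_eq, if_true] at h
        nlinarith
    rw [key y] at hneg
    linarith
  · let y : Pat d := fun i => decide (α i < 0)
    have hpos : 0 ≤ ∑ i, α i * (⟪b y - a i, v i⟫ - 1) := by
      refine Finset.sum_nonneg fun i _ => ?_
      have h := hv i y
      unfold Cset at h
      rcases lt_or_ge (α i) 0 with hp | hp
      · have hy : y i = true := by simp [y, hp]
        simp only [hy, Set.mem_ofPred_eq, if_true] at h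
        nlinarith
      · have hy : ¬ y i = true := by simp [y, hp]
        simp only [hy, Set.mem_ofPred_eq] at h
        have h' : 1 < ⟪b y - a i, v i⟫ := h
        nlinarith
    rw [key y] at hpos
    linarith

/-- The graph is not pandichotomous in `ℝ^k` for `k < d`. -/
lemma not_pandichotomous {k d : ℕ} (hkd : k + 1 = d) : ¬ Pandichotomous k (Gr d) := by
  classical
  intro hP
  obtain ⟨p, δ, hδ, hinj, hp⟩ := hP (Es d) (Es_subset d)
  set a : Fin d → EuclideanSpace ℝ (Fin k) := fun i => p (Sum.inl (Sum.inl i)) with ha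
  set b : Pat d → EuclideanSpace ℝ (Fin k) := fun y => p (Sum.inr y) with hb
  have hH : ∀ i : Fin d, ∃ v, ∀ y, v ∈ Cset a b i y := by
    intro i
    have hhelly := Convex.helly_theorem' (𝕜 := ℝ) (F := fun y : Pat d => Cset a b i y)
      (s := (univ : Finset (Pat d))) (fun y _ => convex_Cset a b i y) (by
        intro T _ hT
        have hT' : T.card ≤ d := by
          rw [finrank_euclideanSpace_fin] at hT
          omega
        set x := p (Sum.inl (Sum.inr (i, ⟨T, hT'⟩))) with hx
        set w := x - a i with hw
        have hw0 : w ≠ 0 := by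
          intro h0
          rw [hw, sub_eq_zero] at h0
          have := hinj h0
          simp at this
        have hw2 : 0 < ⟪w, w⟫ := by
          rw [real_inner_self_eq_norm_sq]
          positivity
        refine ⟨(2 / ⟪w, w⟫) • w, ?_⟩
        rw [Set.mem_iInter₂]
        intro y hy
        have e1 : dist (a i) (b y) ≤ δ ↔ y i = true := by
          rw [hp (Sum.inl (Sum.inl i)) (Sum.inr y) trivial]
          exact mem_Es (l := Sum.inl i) (y := y) trivial
        have e2 : dist x (b y) ≤ δ ↔ (!(y i)) = true := by
          rw [hp (Sum.inl (Sum.inr (i, ⟨T, hT'⟩))) (Sum.inr y) hy]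
          exact mem_Es (l := Sum.inr (i, ⟨T, hT'⟩)) (y := y) hy
        have d1 : dist (a i) (b y) ^ 2 = ⟪b y - a i, b y - a i⟫ := by
          rw [dist_comm, dist_eq_norm, real_inner_self_eq_norm_sq]
        have d2 : dist x (b y) ^ 2 = ⟪b y - a i, b y - a i⟫ - 2 * ⟪b y - a i, w⟫ + ⟪w, w⟫ := by
          rw [dist_comm, dist_eq_norm, ← real_inner_self_eq_norm_sq]
          have : b y - x = (b y - a i) - w := by rw [hw]; abel
          rw [this, real_inner_sub_sub_self]
        have hin : ⟪b y - a i, (2 / ⟪w, w⟫) • w⟫ = 2 * ⟪b y - a i, w⟫ / ⟪w, w⟫ := by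
          rw [real_inner_smul_right]
          ring
        unfold Cset
        rw [Set.mem_ofPred_eq, hin]
        by_cases hyi : y i = true
        · rw [if_pos hyi, div_lt_one hw2]
          have f1 : dist (a i) (b y) ≤ δ := e1.2 hyi
          have f2 : δ < dist x (b y) := by
            rw [← not_le, e2, hyi]
            simp
          have f3 : dist (a i) (b y) ^ 2 < dist x (b y) ^ 2 := by
            have := dist_nonneg (x := a i) (y := b y)
            nlinarith
          rw [d1, d2] at f3
          linarith
        · rw [if_neg hyi, one_lt_div hw2]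
          have f1 : δ < dist (a i) (b y) := by
            rw [← not_le, e1]
            exact hyi
          have f2 : dist x (b y) ≤ δ := by
            rw [e2]
            simpa using hyi
          have f3 : dist x (b y) ^ 2 < dist (a i) (b y) ^ 2 := by
            have := dist_nonneg (x := x) (y := b y)
            nlinarith
          rw [d1, d2] at f3
          linarith)
    obtain ⟨v, hv⟩ := hhelly
    rw [Set.mem_iInter₂] at hv
    exact ⟨v, fun y => hv y (mem_univ y)⟩
  choose v hv using hH
  exact no_vectors (by omega) a b v hv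

theorem result : ∀ d : ℕ, 1 ≤ d → ∃ (V : Type) (_ : Fintype V) (G : SimpleGraph V),
    G.IsBipartite ∧ IsDegenerate G d ∧ ¬ Pandichotomous (d - 1) G := by
  classical
  intro d hd
  exact ⟨Vx d, inferInstance, Gr d, bipartite d, degenerate d, not_pandichotomous (by omega)⟩

end Pool.Agent.Results.MP_8dd54d_co.BipartiteDegenerate
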